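import Mathlib

/-!
# Weak phase retrieval by `2n - 2` vectors is nowhere dense

For `n ≥ 2` the set `W_n` of frames of `2n - 2` vectors of `ℝⁿ` which do weak phase retrieval is not
dense in the set of all frames of `2n - 2` vectors; it is even nowhere dense in `(ℝⁿ)^(2n-2)`.

Proof. Let `u` be the generalised cross product of the first `n - 1` vectors and `v` the one of the
last `n - 1` vectors. Then `x = u + s v` and `y = u - s v` have the same phaseless measurements, and
`x_k y_k = u_k² - s² v_k²`. If `X` does weak phase retrieval these numbers cannot have different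
signs for two different `k`, whatever `s` is, and this forces `u_1² v_n² = u_n² v_1²`: a polynomial
equation in `X` which is not satisfied identically.
-/

set_option autoImplicit false

open Matrix Topology
open scoped RealInnerProductSpace

namespace Pool.Agent.Results.MP_e57dcf_an.NowhereDense

/-- `ℝⁿ` with the standard inner product. -/
abbrev E (n : ℕ) := EuclideanSpace ℝ (Fin n)

/-- `x` and `y` weakly have the same phase. -/
def WeaklySamePhase {n : ℕ} (x y : E n) : Prop :=
  ∃ θ : ℝ, (θ = 1 ∨ θ = -1) ∧ ∀ k, x k * y k ≠ 0 → Real.sign (x k) = θ * Real.sign (y k)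

/-- The family `X` is a frame for `ℝⁿ`. -/
def IsFrame {n m : ℕ} (X : Fin m → E n) : Prop :=
  ∃ A B : ℝ, 0 < A ∧ A ≤ B ∧ ∀ x : E n,
    A * ‖x‖ ^ 2 ≤ ∑ i, |⟪x, X i⟫| ^ 2 ∧ ∑ i, |⟪x, X i⟫| ^ 2 ≤ B * ‖x‖ ^ 2

/-- The family `X` does weak phase retrieval. -/
def WeakPhaseRetrieval {n m : ℕ} (X : Fin m → E n) : Prop :=
  ∀ x y : E n, (∀ i, |⟪x, X i⟫| = |⟪y, X i⟫|) → WeaklySamePhase x y

/-- The generalised cross product of `m` vectors of `ℝ^(m+1)`. -/
noncomputable def cr {m : ℕ} (A : Fin m → E (m + 1)) : E (m + 1) :=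
  WithLp.toLp 2 fun k => (-1) ^ (m + (k : ℕ)) *
    Matrix.det (Matrix.of fun i j : Fin m => A i (k.succAbove j))

theorem cr_apply {m : ℕ} (A : Fin m → E (m + 1)) (k : Fin (m + 1)) :
    cr A k = (-1) ^ (m + (k : ℕ)) *
      Matrix.det (Matrix.of fun i j : Fin m => A i (k.succAbove j)) := rfl

theorem inner_cr {m : ℕ} (A : Fin m → E (m + 1)) (y : E (m + 1)) :
    ⟪cr A, y⟫ = Matrix.det (Matrix.of fun i j : Fin (m + 1) =>
      (Fin.snoc (α := fun _ => E (m + 1)) A y i : E (m + 1)) j) := by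
  rw [Matrix.det_succ_row _ (Fin.last m)]
  simp only [PiLp.inner_apply, cr, Matrix.of_apply, Fin.snoc_last, Fin.val_last,
    Fin.succAbove_last]
  refine Finset.sum_congr rfl fun k _ => ?_
  have : (Matrix.of fun i j : Fin (m + 1) =>
      (Fin.snoc (α := fun _ => E (m + 1)) A y i : E (m + 1)) j).submatrix Fin.castSucc k.succAbove
      = Matrix.of fun i j : Fin m => A i (k.succAbove j) := by
    ext i j
    simp [Matrix.submatrix_apply, Fin.snoc_castSucc]
  rw [this]
  simp
  ring

theorem inner_cr_self {m : ℕ} (A : Fin m → E (m + 1)) (i : Fin m) : ⟪cr A, A i⟫ = 0 := by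
  rw [inner_cr]
  refine Matrix.det_zero_of_row_eq (i := i.castSucc) (j := Fin.last m)
    (Fin.castSucc_lt_last i).ne ?_
  ext j
  simp

/-- The first `m` vectors. -/
def fst {m : ℕ} (X : Fin (2 * (m + 1) - 2) → E (m + 1)) : Fin m → E (m + 1) :=
  fun i => X ⟨i, by omega⟩

/-- The last `m` vectors. -/
def snd {m : ℕ} (X : Fin (2 * (m + 1) - 2) → E (m + 1)) : Fin m → E (m + 1) :=
  fun i => X ⟨m + i, by omega⟩

/-- The polynomial. -/
noncomputable def P {m : ℕ} (X : Fin (2 * (m + 1) - 2) → E (m + 1)) : ℝ :=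
  (cr (fst X) 0) ^ 2 * (cr (snd X) (Fin.last m)) ^ 2
    - (cr (fst X) (Fin.last m)) ^ 2 * (cr (snd X) 0) ^ 2

theorem opposite {α β γ δ : ℝ} (hα : 0 ≤ α) (hβ : 0 ≤ β) (hγ : 0 ≤ γ) (hδ : 0 ≤ δ)
    (h : α * δ - γ * β ≠ 0) :
    ∃ s : ℝ, (α - s ^ 2 * β) * (γ - s ^ 2 * δ) < 0 := by
  have hpos : 0 < β + δ := by
    rcases lt_or_eq_of_le (add_nonneg hβ hδ) with h1 | h1
    · exact h1
    · exfalso
      have hb : β = 0 := by linarith
      have hd : δ = 0 := by linarith
      apply h
      rw [hb, hd]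
      ring
  refine ⟨Real.sqrt ((α + γ) / (β + δ)), ?_⟩
  rw [Real.sq_sqrt (div_nonneg (add_nonneg hα hγ) hpos.le)]
  have e1 : α - (α + γ) / (β + δ) * β = (α * δ - γ * β) / (β + δ) := by
    field_simp
    ring
  have e2 : γ - (α + γ) / (β + δ) * δ = -((α * δ - γ * β) / (β + δ)) := by
    field_simp
    ring
  rw [e1, e2]
  have : 0 < ((α * δ - γ * β) / (β + δ)) ^ 2 := by
    have := div_ne_zero h hpos.ne'
    positivity
  nlinarith

theorem P_eq_zero {m : ℕ} (hm : 1 ≤ m) {X : Fin (2 * (m + 1) - 2) → E (m + 1)}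
    (hX : WeakPhaseRetrieval X) : P X = 0 := by
  by_contra hP
  set u := cr (fst X) with hu
  set v := cr (snd X) with hv
  have hP' : (u 0) ^ 2 * (v (Fin.last m)) ^ 2 - (u (Fin.last m)) ^ 2 * (v 0) ^ 2 ≠ 0 := hP
  obtain ⟨s, hs⟩ := opposite (sq_nonneg (u 0)) (sq_nonneg (v 0)) (sq_nonneg (u (Fin.last m)))
    (sq_nonneg (v (Fin.last m))) hP'
  have hmeas : ∀ i, |⟪u + s • v, X i⟫| = |⟪u - s • v, X i⟫| := by
    intro i
    rcases lt_or_ge (i : ℕ) m with hi | hi
    · have h0 : ⟪u, X i⟫ = 0 := by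
        have := inner_cr_self (fst X) ⟨i, hi⟩
        simpa [fst] using this
      rw [inner_add_left, inner_sub_left, h0, zero_add, zero_sub, abs_neg]
    · have h0 : ⟪v, X i⟫ = 0 := by
        have := inner_cr_self (snd X) ⟨i - m, by omega⟩
        have he : (⟨m + (i - m), by omega⟩ : Fin (2 * (m + 1) - 2)) = i := by
          ext
          simp
          omega
        simpa [snd, he] using this
      rw [inner_add_left, inner_sub_left, inner_smul_left, h0, mul_zero, add_zero, sub_zero]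
  obtain ⟨θ, hθ, hsign⟩ := hX _ _ hmeas
  have key : ∀ k, (u + s • v) k * (u - s • v) k = (u k) ^ 2 - s ^ 2 * (v k) ^ 2 := by
    intro k
    simp
    ring
  have hprod : ((u + s • v) 0 * (u - s • v) 0) *
      ((u + s • v) (Fin.last m) * (u - s • v) (Fin.last m)) < 0 := by
    rw [key, key]
    exact hs
  set x := u + s • v
  set y := u - s • v
  have hx0 : x 0 * y 0 ≠ 0 := by
    intro h
    rw [h, zero_mul] at hprod
    exact lt_irrefl _ hprod
  have hxl : x (Fin.last m) * y (Fin.last m) ≠ 0 := by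
    intro h
    rw [h, mul_zero] at hprod
    exact lt_irrefl _ hprod
  have sgn : ∀ a b : ℝ, a * b ≠ 0 → Real.sign a = θ * Real.sign b → 0 < θ * (a * b) := by
    intro a b hab h
    have ha : a ≠ 0 := left_ne_zero_of_mul hab
    have hb : b ≠ 0 := right_ne_zero_of_mul hab
    rcases lt_or_gt_of_ne ha with ha | ha <;> rcases lt_or_gt_of_ne hb with hb | hb <;>
      rcases hθ with rfl | rfl <;>
      simp only [Real.sign_of_neg, Real.sign_of_pos, ha, hb] at h <;>
      first
        | (exfalso; norm_num at h; done)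
        | (have := mul_pos_of_neg_of_neg ha hb; linarith)
        | (have := mul_pos ha hb; linarith)
        | (have := mul_neg_of_neg_of_pos ha hb; linarith)
        | (have := mul_neg_of_pos_of_neg ha hb; linarith)
  have h1 := sgn _ _ hx0 (hsign 0 hx0)
  have h2 := sgn _ _ hxl (hsign (Fin.last m) hxl)
  have h3 := mul_pos h1 h2
  have hθ2 : θ * θ = 1 := by rcases hθ with rfl | rfl <;> norm_num
  have : θ * (x 0 * y 0) * (θ * (x (Fin.last m) * y (Fin.last m)))
      = (θ * θ) * (x 0 * y 0 * (x (Fin.last m) * y (Fin.last m))) := by ring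
  rw [this, hθ2, one_mul] at h3
  exact lt_asymm h3 hprod

/-- The frame `e_1, …, e_(n-1), e_2, …, e_n`. -/
noncomputable def X₀ (m : ℕ) : Fin (2 * (m + 1) - 2) → E (m + 1) :=
  fun i => EuclideanSpace.single
    (if h : (i : ℕ) < m then ⟨i, by omega⟩ else ⟨i - m + 1, by omega⟩ : Fin (m + 1)) 1

theorem fst_X₀ (m : ℕ) (i : Fin m) : fst (X₀ m) i = EuclideanSpace.single i.castSucc 1 := by
  have : (i : ℕ) < m := i.2
  simp [fst, X₀, this]
  rfl

theorem snd_X₀ (m : ℕ) (i : Fin m) : snd (X₀ m) i = EuclideanSpace.single i.succ 1 := by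
  simp [snd, X₀]
  rfl

theorem P_X₀ {m : ℕ} (hm : 1 ≤ m) : P (X₀ m) ≠ 0 := by
  have h1 : cr (fst (X₀ m)) 0 = 0 := by
    have := inner_cr_self (fst (X₀ m)) ⟨0, hm⟩
    rw [fst_X₀] at this
    simpa [EuclideanSpace.inner_single_right] using this
  have h2 : (cr (fst (X₀ m)) (Fin.last m)) ^ 2 = 1 := by
    have : (Matrix.of fun i j : Fin m => fst (X₀ m) i ((Fin.last m).succAbove j)) = 1 := by
      ext i j
      rw [Matrix.of_apply, fst_X₀]
      simp [Matrix.one_apply, eq_comm]
    rw [cr_apply, this, Matrix.det_one, mul_one, ← pow_mul, mul_comm, pow_mul]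
    norm_num
  have h3 : (cr (snd (X₀ m)) 0) ^ 2 = 1 := by
    have : (Matrix.of fun i j : Fin m => snd (X₀ m) i ((0 : Fin (m + 1)).succAbove j)) = 1 := by
      ext i j
      rw [Matrix.of_apply, snd_X₀]
      simp [Matrix.one_apply, eq_comm]
    rw [cr_apply, this, Matrix.det_one, mul_one, ← pow_mul, mul_comm, pow_mul]
    norm_num
  rw [P, h1, h2, h3]
  norm_num

theorem continuous_cr {m : ℕ} (k : Fin (m + 1)) :
    Continuous fun A : Fin m → E (m + 1) => cr A k := by
  simp only [cr_apply]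
  refine continuous_const.mul (Continuous.matrix_det ?_)
  refine continuous_pi fun i => continuous_pi fun j => ?_
  simp only [Matrix.of_apply]
  fun_prop

theorem continuous_P (m : ℕ) :
    Continuous (P : (Fin (2 * (m + 1) - 2) → E (m + 1)) → ℝ) := by
  have hf : Continuous (fst : (Fin (2 * (m + 1) - 2) → E (m + 1)) → _) := by
    unfold fst
    fun_prop
  have hs : Continuous (snd : (Fin (2 * (m + 1) - 2) → E (m + 1)) → _) := by
    unfold snd
    fun_prop
  have h1 := fun k => (continuous_cr k).comp hf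
  have h2 := fun k => (continuous_cr k).comp hs
  unfold P
  exact (((h1 0).pow 2).mul ((h2 _).pow 2)).sub (((h1 _).pow 2).mul ((h2 0).pow 2))

theorem analytic_cr {m : ℕ} (A B : Fin m → E (m + 1)) (k : Fin (m + 1)) (t : ℝ) :
    AnalyticAt ℝ (fun t : ℝ => cr (fun i => A i + t • B i) k) t := by
  simp only [cr_apply, Matrix.det_apply]
  refine analyticAt_const.mul (Finset.analyticAt_fun_sum _ fun σ _ => ?_)
  refine AnalyticAt.const_smul (Finset.analyticAt_fun_prod _ fun i _ => ?_)
  simp only [Matrix.of_apply, PiLp.add_apply, PiLp.smul_apply, smul_eq_mul]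
  exact analyticAt_const.add (analyticAt_id.mul analyticAt_const)

theorem analytic_P {m : ℕ} (X Y : Fin (2 * (m + 1) - 2) → E (m + 1)) (t : ℝ) :
    AnalyticAt ℝ (fun t : ℝ => P (fun i => X i + t • Y i)) t := by
  have h1 := fun k => analytic_cr (fst X) (fst Y) k t
  have h2 := fun k => analytic_cr (snd X) (snd Y) k t
  exact (((h1 0).pow 2).mul ((h2 _).pow 2)).sub (((h1 _).pow 2).mul ((h2 0).pow 2))

/-- The zero set of `P` has empty interior. -/
theorem interior_zero {m : ℕ} (hm : 1 ≤ m) :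
    interior {X : Fin (2 * (m + 1) - 2) → E (m + 1) | P X = 0} = ∅ := by
  rw [Set.eq_empty_iff_forall_notMem]
  intro X hX
  rw [mem_interior_iff_mem_nhds] at hX
  set Y : Fin (2 * (m + 1) - 2) → E (m + 1) := fun i => X₀ m i - X i with hY
  have hc : Continuous fun t : ℝ => (fun i => X i + t • Y i : Fin (2 * (m + 1) - 2) → E (m + 1)) := by
    fun_prop
  have h0 : (fun t : ℝ => P (fun i => X i + t • Y i)) =ᶠ[𝓝 0] 0 := by
    have := hc.continuousAt (x := 0)
    have h : ∀ᶠ t : ℝ in 𝓝 0, (fun i => X i + t • Y i) ∈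
        {X : Fin (2 * (m + 1) - 2) → E (m + 1) | P X = 0} := by
      apply this
      simpa using hX
    exact h
  have hall := AnalyticOnNhd.eqOn_of_preconnected_of_eventuallyEq
    (f := fun t : ℝ => P (fun i => X i + t • Y i)) (g := 0) (U := Set.univ)
    (fun t _ => analytic_P X Y t) analyticOnNhd_const isPreconnected_univ (Set.mem_univ 0) h0
  have h1 : P (fun i => X i + (1 : ℝ) • Y i) = 0 := hall (Set.mem_univ (1 : ℝ))
  apply P_X₀ hm
  have : (fun i => X i + (1 : ℝ) • Y i) = X₀ m := by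
    funext i
    simp [hY]
  rwa [this] at h1

theorem isFrame_X₀ (m : ℕ) (hm : 1 ≤ m) : IsFrame (X₀ m) := by
  refine ⟨1, 2 * (m + 1) - 2 + 1, one_pos, by
    have : (1 : ℝ) ≤ m := by exact_mod_cast hm
    linarith, fun x => ⟨?_, ?_⟩⟩
  · rw [one_mul, EuclideanSpace.norm_sq_eq]
    let f : Fin (m + 1) → Fin (2 * (m + 1) - 2) := fun k =>
      if h : (k : ℕ) < m then ⟨k, by omega⟩ else ⟨2 * m - 1, by omega⟩
    have hf : Function.Injective f := by
      intro a b hab
      simp only [f] at hab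
      split_ifs at hab with h1 h2 h2 <;> simp only [Fin.mk.injEq] at hab <;> ext <;> omega
    have hX : ∀ k, X₀ m (f k) = EuclideanSpace.single k 1 := by
      intro k
      by_cases h : (k : ℕ) < m
      · simp only [X₀, f, h, dif_pos]
      · have h2 : ¬ (2 * m - 1 < m) := by omega
        simp only [X₀, f, h, h2, dif_neg, not_false_eq_true]
        congr 1
        ext
        simp only
        omega
    calc ∑ k, ‖x k‖ ^ 2 = ∑ k, |⟪x, X₀ m (f k)⟫| ^ 2 := by
          refine Finset.sum_congr rfl fun k _ => ?_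
          rw [hX]
          simp [EuclideanSpace.inner_single_right]
      _ = ∑ i ∈ Finset.univ.map ⟨f, hf⟩, |⟪x, X₀ m i⟫| ^ 2 := by
          rw [Finset.sum_map]
          rfl
      _ ≤ _ := Finset.sum_le_sum_of_subset_of_nonneg (Finset.subset_univ _)
          fun _ _ _ => by positivity
  · calc ∑ i, |⟪x, X₀ m i⟫| ^ 2 ≤ ∑ _i : Fin (2 * (m + 1) - 2), ‖x‖ ^ 2 := by
          refine Finset.sum_le_sum fun i _ => ?_
          have h := abs_real_inner_le_norm x (X₀ m i)
          have h1 : ‖X₀ m i‖ = 1 := by simp [X₀]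
          rw [h1, mul_one] at h
          exact pow_le_pow_left₀ (abs_nonneg _) h 2
      _ = ((2 * (m + 1) - 2 : ℕ) : ℝ) * ‖x‖ ^ 2 := by simp
      _ ≤ _ := by
          refine mul_le_mul_of_nonneg_right ?_ (by positivity)
          push_cast [show 2 ≤ 2 * (m + 1) by omega]
          linarith

/-- For every `n ≥ 2` let `W` be the set of frames of `2n - 2` vectors of `ℝⁿ` which do weak phase
retrieval. Then `W` is not dense in the set of all frames of `2n - 2` vectors, and it is nowhere
dense in `(ℝⁿ)^(2n-2)`. -/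
theorem result (n : ℕ) (hn : 2 ≤ n) :
    ¬ Dense {X : {X : Fin (2 * n - 2) → E n // IsFrame X} | WeakPhaseRetrieval X.1} ∧
    interior (closure {X : Fin (2 * n - 2) → E n | IsFrame X ∧ WeakPhaseRetrieval X}) = ∅ := by
  obtain ⟨m, rfl⟩ : ∃ m, n = m + 1 := ⟨n - 1, by omega⟩
  have hm : 1 ≤ m := by omega
  have hclosed : IsClosed {X : Fin (2 * (m + 1) - 2) → E (m + 1) | P X = 0} :=
    isClosed_eq (continuous_P m) continuous_const
  constructor
  · intro hd
    let F := {X : Fin (2 * (m + 1) - 2) → E (m + 1) // IsFrame X}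
    have hcl : IsClosed {X : F | P X.1 = 0} := hclosed.preimage continuous_subtype_val
    have hsub : {X : F | WeakPhaseRetrieval X.1} ⊆ {X : F | P X.1 = 0} :=
      fun X hX => P_eq_zero hm hX
    let Y : F := ⟨X₀ m, isFrame_X₀ m hm⟩
    have h : Y ∈ {X : F | P X.1 = 0} := closure_minimal hsub hcl (hd Y)
    exact P_X₀ hm h
  · refine Set.subset_empty_iff.1 ?_
    rw [← interior_zero hm]
    refine interior_mono (closure_minimal (fun X hX => P_eq_zero hm hX.2) hclosed)

end Pool.Agent.Results.MP_e57dcf_an.NowhereDense
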